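import Pool.Agent.Lib.MP_9fb153_ag.Main

/-!
A type A Schubert variety whose tangent cone at a torus-fixed point is not Cohen-Macaulay
(`n = 12`, `w = w0 s2 s4 s6 s8 s10`, `v` reversing the middle eight letters).
-/

namespace Pool.Agent.Results.MP_9fb153_ag.NotCM

open Pool.Agent.Lib.MP_9fb153_ag

theorem result :
    ∃ (n : ℕ) (v w : Equiv.Perm (Fin n)), BruhatLE v w ∧
      ∃ (p : Ideal (ChartRing v w)) (_ : p.IsPrime),
        (∀ f : MvPolynomial (Pos n) ℂ,
          Ideal.Quotient.mk (schubertIdeal v w) f ∈ p ↔ MvPolynomial.constantCoeff f = 0) ∧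
        ¬ TangentConeIsCM p :=
  ⟨12, vP, wP, bruhatLE_vP_wP, p0, p0_isPrime, mem_p0, not_cm (Localization.AtPrime p0)⟩

end Pool.Agent.Results.MP_9fb153_ag.NotCM
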